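import Pool.Agent.J4.H68.AC.E2

set_option autoImplicit false

/-!
# Sharp coefficient bounds for alpha-convex functions

For every `0 < α < 1` and every `n ≥ 2` the supremum `A_n(α)` of `|a_n|` over the class `M(α)` of
alpha-convex functions is attained and is the `n`-th Taylor coefficient of the alpha-convex Koebe
function, given here by an explicit recursion.

Outline of the proof (`β = 1/α`).  On the right half plane put
`R(s) = 2β ∫_0^1 (1-y²)^{β-1} (1+sy)^{-2β} dy`, `Q = 1/R`, and let `L` be the function with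
`L(1) = 0`, `L' = 2 (Q-1)/(s²-1)`.  For `f` in the class write `f = z F`, `P = z f'/f`.
Then `P + α z P'/P` has positive real part, which forces `P = Q ∘ q₁` and then
`log F = L ∘ q₂` with `q₁, q₂` in the Caratheodory class (a Jack type lemma; the univalence and
starlikeness needed for `Q`, `L` are proved on the imaginary axis and carried over by the
Phragmen-Lindelof principle).  Finally, for `Ψ = exp L` the ratio `Ψ''/Ψ'` is bounded with
positive real part on the imaginary axis, and for such `Ψ` a second variation argument on the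
coefficient body shows that `|[zⁿ] Ψ(q(z))|` is maximal for `q = (1+z)/(1-z)`.
-/

namespace Pool.Agent.Results.MP_1f2de8_an.SharpBounds

open Complex Metric Set Pool.Agent.J4.H68.AC

/-- the class `M(α)`: `f` is analytic and univalent in the open unit disc, `f(0) = 0`, `f'(0) = 1`
and `Re [α (1 + z f''(z)/f'(z)) + (1-α) z f'(z)/f(z)] > 0` for `0 < |z| < 1` (at `z = 0` the
bracket has the limit `1`). -/
def AlphaConvex (α : ℝ) (f : ℂ → ℂ) : Prop :=
  DifferentiableOn ℂ f (ball 0 1) ∧ InjOn f (ball 0 1) ∧ f 0 = 0 ∧ deriv f 0 = 1 ∧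
    ∀ z ∈ ball (0:ℂ) 1, z ≠ 0 →
      0 < ((α:ℂ) * (1 + z * deriv (deriv f) z / deriv f z) + (1 - α) * (z * deriv f z / f z)).re

/-- the numbers `c k = (2/α)(2/α + 1) ... (2/α + k - 1) / (k! (1 + α k))` -/
noncomputable def c (α : ℝ) (k : ℕ) : ℝ :=
  (∏ i ∈ Finset.range k, (2 / α + i)) / (k.factorial * (1 + α * k))

/-- the sequence `A α 1 = 1`,
`(m+1) A α (m+2) = ∑_{j=1}^{m+1} (α j - (m + 1 - j)) c_j A α (m+2-j)` (and `A α 0 = 0`) -/
noncomputable def A (α : ℝ) : ℕ → ℝ
  | 0 => 0
  | 1 => 1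
  | (m + 2) => (∑ j : Fin (m + 1), (α * ((j:ℕ) + 1) - ((m + 1) - ((j:ℕ) + 1))) * c α ((j:ℕ) + 1)
      * A α (m + 1 - (j:ℕ))) / (m + 1)
termination_by n => n
decreasing_by omega

lemma A_eq (α : ℝ) (n : ℕ) : A α (n + 1) = KK α n := by
  induction n using Nat.strong_induction_on with
  | _ n ih =>
    rcases n with _ | m
    · rw [A, KK]
    · rw [A, KK]
      congr 1
      refine Finset.sum_congr rfl fun j _ => ?_
      have hj := j.2
      have h1 : m + 1 - (j:ℕ) = (m - (j:ℕ)) + 1 := by omega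
      rw [h1, ih (m - (j:ℕ)) (by omega)]
      unfold c cK
      ring

/-- **The coefficient problem for alpha-convex functions.**  For `0 < α < 1` and `n ≥ 2` the
supremum of `|a_n|` over `M(α)` is attained and equals `A α n`. -/
theorem result (α : ℝ) (hα0 : 0 < α) (hα1 : α < 1) (n : ℕ) (hn : 2 ≤ n) :
    IsGreatest {t : ℝ | ∃ f : ℂ → ℂ, AlphaConvex α f ∧
      t = ‖iteratedDeriv n f 0 / (n.factorial : ℂ)‖} (A α n) := by
  set β : ℝ := 1 / α with hβdef
  have hβ : 1 < β := by
    rw [hβdef, lt_div_iff₀ hα0]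
    linarith
  have hαβ : α = 1 / β := by
    rw [hβdef]
    field_simp
  have hαc : (α : ℂ) = 1 / (β : ℂ) := by
    rw [hαβ]
    push_cast
    rfl
  obtain ⟨m, rfl⟩ : ∃ m, n = m + 1 := ⟨n - 1, by omega⟩
  have hm : 1 ≤ m := by omega
  have hPS : AnalyticAt ℂ (PS β) 1 := (an_LL hβ (by simp)).cexp
  -- coefficients of the extremal function
  have hKK : tc m (fun z => PS β (pp 1 z)) = (A α (m + 1) : ℝ) := by
    rw [tc_KK hβ, A_eq, ← hαβ]
  have hApos : 0 < A α (m + 1) := by
    rw [A_eq, hαβ]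
    exact KK_pos hβ m
  constructor
  · refine ⟨kk β, ⟨?_, kk_injOn hβ, by simp [kk], kk_deriv_zero hβ, ?_⟩, ?_⟩
    · intro z hz
      exact (hasDerivAt_kk hβ (mem_ball_zero_iff.1 hz)).differentiableAt.differentiableWithinAt
    · intro z hz hz0
      rw [hαc, kk_cond hβ (mem_ball_zero_iff.1 hz) hz0]
      exact pp_one_re (mem_ball_zero_iff.1 hz)
    · have h1 : iteratedDeriv (m + 1) (kk β) 0 / ((m + 1).factorial : ℂ) = tc (m + 1) (kk β) := rfl
      have h2 : tc (m + 1) (kk β) = tc m (fun z => PS β (pp 1 z)) := by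
        have := tc_z_mul (an_PSpp hβ) m
        exact this
      rw [h1, h2, hKK, Complex.norm_real, Real.norm_of_nonneg hApos.le]
  · rintro t ⟨f, ⟨hf, hinj, h0, h1, hre⟩, rfl⟩
    obtain ⟨q, hq, hq0, hqre, hfq⟩ := exists_q hβ hf hinj h0 h1 (by
      intro z hz hz0
      have := hre z hz hz0
      rw [hαc] at this
      exact this)
    have h2 : iteratedDeriv (m + 1) f 0 / ((m + 1).factorial : ℂ) = tc (m + 1) f := rfl
    have hqan : AnalyticAt ℂ q 0 := hq.analyticAt (isOpen_ball.mem_nhds (mem_ball_self one_pos))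
    have hcomp : AnalyticAt ℂ (fun z => PS β (q z)) 0 :=
      AnalyticAt.fun_comp (by rw [hq0]; exact hPS) hqan
    have h3 : tc (m + 1) f = tc m (fun z => PS β (q z)) := by
      rw [← tc_z_mul hcomp]
      refine tc_congr ?_ _
      filter_upwards [isOpen_ball.mem_nhds (mem_ball_self (x := (0:ℂ)) one_pos)] with z hz
      exact hfq z hz
    have hopen : IsOpen {s : ℂ | 0 < s.re} := isOpen_lt continuous_const continuous_re
    have hev : ∀ᶠ s in nhds (1:ℂ), 0 < s.re := hopen.mem_nhds (by simp)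
    have hd1 : deriv (PS β) =ᶠ[nhds (1:ℂ)] P1 β := by
      filter_upwards [hev] with s hs
      exact (hasDerivAt_PS hβ hs.le).deriv
    have hd2 : ∀ᶠ s in nhds (1:ℂ), deriv (deriv (PS β)) s = PH β s * deriv (PS β) s := by
      filter_upwards [hd1.deriv, hd1, hev] with s hs1 hs2 hs3
      rw [hs1, hs2, (hasDerivAt_P1 hβ hs3.le).deriv]
    have hb := coeff_bound hm hPS (by
        rw [(hasDerivAt_PS hβ (by simp)).deriv]
        exact P1_ne hβ (by simp)) (fun s hs => PH_diff hβ hs) (PH_bdd hβ) (PH_axis hβ) hd2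
      hq hq0 hqre
    rw [h2, h3]
    refine hb.trans ?_
    rw [hKK, Complex.norm_real, Real.norm_of_nonneg hApos.le]

end Pool.Agent.Results.MP_1f2de8_an.SharpBounds
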